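import Mathlib

set_option autoImplicit false

namespace Pool.Agent.Lib.MP_6fb490_co

open PowerSeries

/-- The number of inversions of a permutation. -/
def invNum {n : ℕ} (π : Equiv.Perm (Fin n)) : ℕ :=
  (Finset.univ.filter fun p : Fin n × Fin n => p.1 < p.2 ∧ π p.2 < π p.1).card

/-- The permutation avoids the pattern 1243. -/
def Avoids {n : ℕ} (π : Equiv.Perm (Fin n)) : Prop :=
  ¬ ∃ a b c d : Fin n, a < b ∧ b < c ∧ c < d ∧ π a < π b ∧ π b < π d ∧ π d < π c

/-- The number of 1243-avoiding permutations of length `n` with `k` inversions. -/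
noncomputable def avCount (n k : ℕ) : ℕ :=
  {π : Equiv.Perm (Fin n) | Avoids π ∧ invNum π = k}.ncard

/-- Weighted Motzkin paths with `n` steps from height `0` to height `h`: step number `i` has weight
`q ^ (i - 1)` if it goes up, and `q ^ (i - h)` if it is level or goes down and ends at height `h`. -/
noncomputable def mot : ℕ → ℕ → ℚ⟦X⟧
  | 0, h => if h = 0 then 1 else 0
  | n + 1, 0 => X ^ (n + 1) * (mot n 0 + mot n 1)
  | n + 1, h + 1 => X ^ n * mot n h + X ^ (n - h) * (mot n (h + 1) + mot n (h + 2))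

/-- The product `(1 - q) (1 - q ^ 2) ... (1 - q ^ n)`. -/
noncomputable def qPoch (n : ℕ) : ℚ⟦X⟧ := ∏ i ∈ Finset.range n, (1 - X ^ (i + 1))

end Pool.Agent.Lib.MP_6fb490_co
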