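import Pool.Agent.Lib.MP_6fb490_co.Values

set_option autoImplicit false

namespace Pool.Agent.Lib.MP_6fb490_co

open PowerSeries
open scoped ENNReal

noncomputable def Rp : ℕ → ℕ → ℕ → R
  | 0, e, h => if e = 0 ∧ h = 0 then 1 else 0
  | L + 1, e, h => ((if 1 ≤ e then X ^ e * Rp L (e - 1) h else 0) +
      (if 2 ≤ e then X ^ e * Rp L (e - 2) (h + 1) else 0)) +
      (X ^ (e + h) * Rp L e h + X ^ e * dn (Rp L e) h)

theorem Q_eq (L : ℕ) : ∀ l h, Q L l h = S fun e => X ^ (e * l) * Rp L e h := by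
  induction L with
  | zero =>
    intro l h
    rw [S_single 0]
    · simp [Q, Rp]
    · intro i hi; simp [Rp, hi]
  | succ L ih =>
    intro l h
    simp only [Q, Rp, mul_add, S_add, mul_ite, mul_zero]
    rw [S_shift 1 (fun e => X ^ (e * l) * (X ^ e * Rp L (e - 1) h)),
      S_shift 2 (fun e => X ^ (e * l) * (X ^ e * Rp L (e - 2) (h + 1)))]
    congr 1
    · simp only [ih, mul_S, Nat.add_sub_cancel]
      congr 1
      · exact S_congr fun e => by ring
      · exact S_congr fun e => by ring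
    · congr 1
      · simp only [ih, mul_S]
        exact S_congr fun e => by ring
      · cases h with
        | zero => simp [dn, S_zero]
        | succ h =>
          simp only [dn, ih, mul_S]
          exact S_congr fun e => by ring

/-- Weighted Motzkin paths over any commutative semiring. -/
noncomputable def motG (A : Type) [CommSemiring A] : ℕ → ℕ → A⟦X⟧
  | 0, h => if h = 0 then 1 else 0
  | n + 1, 0 => X ^ (n + 1) * (motG A n 0 + motG A n 1)
  | n + 1, h + 1 => X ^ n * motG A n h + X ^ (n - h) * (motG A n (h + 1) + motG A n (h + 2))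

theorem motG_zero (A : Type) [CommSemiring A] (n : ℕ) : ∀ h, n < h → motG A n h = 0 := by
  induction n with
  | zero => intro h hh; simp [motG, hh.ne']
  | succ n ih =>
    intro h hh
    obtain ⟨h, rfl⟩ : ∃ h', h = h' + 1 := ⟨h - 1, by omega⟩
    rw [motG, ih h (by omega), ih (h + 1) (by omega), ih (h + 2) (by omega)]
    simp

theorem map_motG {A B : Type} [CommSemiring A] [CommSemiring B] (f : A →+* B) (n : ℕ) :
    ∀ h, PowerSeries.map f (motG A n h) = motG B n h := by
  induction n with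
  | zero => intro h; simp only [motG]; split_ifs <;> simp
  | succ n ih => intro h; cases h <;> simp [motG, ih]

noncomputable def Ri (e h : ℕ) : R := motG ℝ≥0∞ (e + h) h * PG 1 (e + h)

theorem Ri_eq (e h : ℕ) (hr : e + h ≠ 0) :
    Ri e h = ((if 1 ≤ e then X ^ e * Ri (e - 1) h else 0) +
      (if 2 ≤ e then X ^ e * Ri (e - 2) (h + 1) else 0)) +
      (X ^ (e + h) * Ri e h + X ^ e * dn (Ri e) h) := by
  obtain ⟨n, hn⟩ : ∃ n, e + h = n + 1 := ⟨e + h - 1, by omega⟩
  have a1 : Ri e h = motG ℝ≥0∞ (n + 1) h * PG 1 n + X ^ (e + h) * Ri e h := by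
    unfold Ri
    rw [hn, PG_succ']
    conv_lhs => rw [geo_eq (by omega : 1 + n ≠ 0)]
    rw [add_comm 1 n]
    ring
  have a2 : (if 1 ≤ e then X ^ e * Ri (e - 1) h else 0) = X ^ e * motG ℝ≥0∞ n h * PG 1 n := by
    split_ifs with he
    · unfold Ri
      rw [show e - 1 + h = n by omega, mul_assoc]
    · rw [motG_zero _ n h (by omega)]; simp
  have a3 : (if 2 ≤ e then X ^ e * Ri (e - 2) (h + 1) else 0) =
      X ^ e * motG ℝ≥0∞ n (h + 1) * PG 1 n := by
    split_ifs with he
    · unfold Ri
      rw [show e - 2 + (h + 1) = n by omega, mul_assoc]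
    · rw [motG_zero _ n (h + 1) (by omega)]; simp
  rw [a2, a3]
  conv_lhs => rw [a1]
  cases h with
  | zero =>
    have : e = n + 1 := by omega
    subst this
    simp only [motG, dn]
    ring
  | succ h =>
    have e1 : n - h = e := by omega
    have e2 : e + h = n := by omega
    simp only [motG, dn, Ri, e1, e2]
    rw [← e2]
    ring

theorem Rp_zero (L : ℕ) : Rp L 0 0 = 1 := by
  induction L with
  | zero => simp [Rp]
  | succ L ih => simp [Rp, ih, dn]

theorem Rp_eqv (L : ℕ) : ∀ e h, Eqv (L - 1) (Rp L e h) (Ri e h) ∧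
    (e + h = 0 → Rp L e h = Ri e h) := by
  have h0 : ∀ L e h, e + h = 0 → Rp L e h = Ri e h := by
    intro L e h hr
    obtain ⟨rfl, rfl⟩ : e = 0 ∧ h = 0 := by omega
    rw [Rp_zero]
    simp [Ri, motG, PG]
  induction L with
  | zero => exact fun e h => ⟨Eqv.zero _ _, h0 _ e h⟩
  | succ L ih =>
    intro e h
    refine ⟨?_, h0 _ e h⟩
    by_cases hr : e + h = 0
    · rw [h0 _ e h hr]; exact Eqv.refl _ _
    rw [Ri_eq e h hr, Rp, Nat.add_sub_cancel]
    refine Eqv.add (Eqv.add ?_ ?_) (Eqv.add ?_ ?_)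
    · split_ifs with he
      · exact Eqv.X_pow_mul e ((ih _ _).1.mono (by omega))
      · exact Eqv.refl _ _
    · split_ifs with he
      · exact Eqv.X_pow_mul e ((ih _ _).1.mono (by omega))
      · exact Eqv.refl _ _
    · exact Eqv.X_pow_mul _ ((ih _ _).1.mono (by omega))
    · cases h with
      | zero => exact Eqv.refl _ _
      | succ h =>
        simp only [dn, ← mul_assoc, ← pow_add]
        by_cases h1 : e + h = 0
        · rw [(ih e h).2 h1]; exact Eqv.refl _ _
        · exact Eqv.X_pow_mul _ ((ih _ _).1.mono (by omega))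

theorem Ri_small {k e : ℕ} (h : k ≤ e) : Eqv k (Ri e 0) 0 := by
  cases e with
  | zero => rw [Nat.le_zero.1 h]; exact Eqv.zero _ _
  | succ e =>
    simp only [Ri, add_zero, motG, mul_assoc]
    exact Eqv.X_pow_zero h _

theorem top_eqv {k L K : ℕ} (hL : k + 2 ≤ L) (hK : k ≤ K) :
    Eqv (k + 1) (S fun c => X ^ c * Fz L c ⊤)
      (PG 1 K * ∑ e ∈ Finset.range (K + 1), motG ℝ≥0∞ e 0 * PG 1 e) := by
  rw [top_eq', Q_eq]
  refine Eqv.mul ((PG_eqv (a := k) le_rfl (by omega)).trans (PG_eqv (a := k) le_rfl hK).symm) ?_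
  rw [← S_range]
  refine Eqv.S fun e => ?_
  simp only [mul_zero, pow_zero, one_mul]
  refine ((Rp_eqv L e 0).1.mono (by omega)).trans ?_
  split_ifs with he
  · exact Eqv.refl _ _
  · exact Ri_small (by omega)

end Pool.Agent.Lib.MP_6fb490_co
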