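import Pool.Agent.Lib.MP_6fb490_co.Limit
import Pool.Agent.Lib.MP_6fb490_co.Defs

set_option autoImplicit false

namespace Pool.Agent.Lib.MP_6fb490_co

open PowerSeries
open scoped ENNReal

/-- Put the value `c` in front of the permutation `τ`. -/
def consP {n : ℕ} (c : Fin (n + 1)) (τ : Equiv.Perm (Fin n)) : Equiv.Perm (Fin (n + 1)) :=
  (finSuccEquiv n).trans (τ.optionCongr.trans (finSuccEquiv' c).symm)

@[simp] theorem consP_zero {n : ℕ} (c : Fin (n + 1)) (τ : Equiv.Perm (Fin n)) :
    consP c τ 0 = c := by simp [consP]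

@[simp] theorem consP_succ {n : ℕ} (c : Fin (n + 1)) (τ : Equiv.Perm (Fin n)) (i : Fin n) :
    consP c τ i.succ = c.succAbove (τ i) := by simp [consP]

theorem consP_bijective (n : ℕ) :
    Function.Bijective fun p : Fin (n + 1) × Equiv.Perm (Fin n) => consP p.1 p.2 := by
  rw [Fintype.bijective_iff_injective_and_card]
  constructor
  · rintro ⟨c, τ⟩ ⟨c', τ'⟩ h
    have h0 : c = c' := by simpa using congrArg (fun π => π 0) h
    subst h0
    congr 1
    ext i
    have := congrArg (fun π => π i.succ) h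
    simp only [consP_succ] at this
    rw [Fin.succAbove_right_injective this]
  · simp [Fintype.card_perm, Nat.factorial_succ]

theorem val_succAbove {n : ℕ} (c : Fin (n + 1)) (v : Fin n) :
    (c.succAbove v : ℕ) = if (v : ℕ) < c then (v : ℕ) else v + 1 := by
  unfold Fin.succAbove
  by_cases h : v.castSucc < c
  · rw [if_pos h, if_pos (by exact h)]; rfl
  · rw [if_neg h, if_neg (by exact h)]; rfl

theorem invNum_consP {n : ℕ} (c : Fin (n + 1)) (τ : Equiv.Perm (Fin n)) :
    invNum (consP c τ) = c + invNum τ := by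
  unfold invNum
  simp only [Finset.card_filter, Fintype.sum_prod_type, Fin.sum_univ_succ,
    false_and, if_false, zero_add, Fin.succ_pos, true_and, consP_zero, consP_succ,
    Fin.not_lt_zero, Fin.succ_lt_succ_iff, Fin.succAbove_lt_succAbove_iff]
  congr 1
  rw [Equiv.sum_comp τ (fun v => if c.succAbove v < c then 1 else 0)]
  have : ∀ v : Fin n, (c.succAbove v < c) ↔ (v : ℕ) < c := by
    intro v
    rw [Fin.lt_def, val_succAbove]
    split_ifs <;> omega
  simp only [this]
  rw [Fin.sum_univ_eq_sum_range (fun v => if v < (c : ℕ) then 1 else 0) n, ← Finset.card_filter]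
  have : (Finset.range n).filter (fun v => v < (c : ℕ)) = Finset.range c := by
    ext v
    have := c.2
    simp only [Finset.mem_filter, Finset.mem_range]
    omega
  rw [this, Finset.card_range]

/-- The condition on the rest of a permutation when `x` remaining values are below the current
minimum and `U` remaining values are below the least entry that is not a record. -/
def Ok {n : ℕ} (x : ℕ) (U : ℕ∞) (τ : Equiv.Perm (Fin n)) : Prop :=
  (∀ i j, i < j → U ≤ ((τ i : ℕ) : ℕ∞) → U ≤ ((τ j : ℕ) : ℕ∞) → (τ i : ℕ) < τ j) ∧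
  ∀ i j k, i < j → j < k → (τ i : ℕ) < τ k → (τ k : ℕ) < τ j →
    (τ i : ℕ) < x ∧ ∀ l, l < i → (τ i : ℕ) < τ l

theorem ok_iff_avoids {n : ℕ} (π : Equiv.Perm (Fin n)) : Ok n ⊤ π ↔ Avoids π := by
  unfold Ok Avoids
  constructor
  · rintro ⟨-, h⟩ ⟨a, b, c, d, h1, h2, h3, h4, h5, h6⟩
    have := (h b c d h2 h3 h5 h6).2 a h1
    have h4' : (π a : ℕ) < π b := h4
    omega
  · intro h
    refine ⟨fun i j _ hi => by simp at hi, fun i j k h1 h2 h3 h4 => ⟨(π i).2, fun l hl => ?_⟩⟩
    by_contra hc
    have hne : (π l : ℕ) ≠ π i := fun he => hl.ne (π.injective (Fin.ext he))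
    exact h ⟨l, i, j, k, hl, h1, h2, Fin.lt_def.2 (by omega), h3, h4⟩

theorem sa_lt {n : ℕ} (c : Fin (n + 1)) (u v : Fin n) :
    (c.succAbove u : ℕ) < c.succAbove v ↔ (u : ℕ) < v := by
  rw [val_succAbove, val_succAbove]
  split_ifs <;> omega

theorem ok_record {n : ℕ} {x : ℕ} {U : ℕ∞} (hU : (x : ℕ∞) ≤ U) (c : Fin (n + 1))
    (hc : (c : ℕ) < x) (τ : Equiv.Perm (Fin n)) : Ok x U (consP c τ) ↔ Ok c (U - 1) τ := by
  have hs : ∀ v : Fin n, U ≤ ((c.succAbove v : ℕ) : ℕ∞) ↔ U - 1 ≤ ((v : ℕ) : ℕ∞) := by
    intro v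
    induction U using ENat.recTopCoe with
    | top => simp
    | coe u =>
      rw [val_succAbove]
      norm_cast at hU ⊢
      split_ifs <;> omega
  have hc' : ¬ U ≤ ((c : ℕ) : ℕ∞) := fun h => by
    have : (x : ℕ∞) ≤ (c : ℕ) := hU.trans h
    norm_cast at this
    omega
  have hlt : ∀ v : Fin n, (c.succAbove v : ℕ) < c ↔ (v : ℕ) < c := by
    intro v; rw [val_succAbove]; split_ifs <;> omega
  constructor
  · rintro ⟨h1, h2⟩
    refine ⟨fun i j hij hi hj => ?_, fun i j k hij hjk a1 a2 => ?_⟩
    · have := h1 i.succ j.succ (Fin.succ_lt_succ_iff.2 hij)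
      simp only [consP_succ, hs, sa_lt] at this
      exact this hi hj
    · have := h2 i.succ j.succ k.succ (Fin.succ_lt_succ_iff.2 hij) (Fin.succ_lt_succ_iff.2 hjk)
      simp only [consP_succ, sa_lt] at this
      obtain ⟨-, b⟩ := this a1 a2
      refine ⟨?_, fun l hl => ?_⟩
      · have := b 0 (Fin.succ_pos i)
        rwa [consP_zero, hlt] at this
      · have := b l.succ (Fin.succ_lt_succ_iff.2 hl)
        rwa [consP_succ, sa_lt] at this
  · rintro ⟨h1, h2⟩
    refine ⟨fun i j hij hi hj => ?_, fun i j k hij hjk a1 a2 => ?_⟩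
    · induction i using Fin.cases with
      | zero => rw [consP_zero] at hi; exact absurd hi hc'
      | succ i =>
        induction j using Fin.cases with
        | zero => exact absurd hij (Fin.not_lt_zero _)
        | succ j =>
          simp only [consP_succ, hs, sa_lt] at hi hj ⊢
          exact h1 i j (Fin.succ_lt_succ_iff.1 hij) hi hj
    · induction i using Fin.cases with
      | zero => exact ⟨by rwa [consP_zero], fun l hl => absurd hl (Fin.not_lt_zero _)⟩
      | succ i =>
        induction j using Fin.cases with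
        | zero => exact absurd hij (Fin.not_lt_zero _)
        | succ j =>
          induction k using Fin.cases with
          | zero => exact absurd hjk (Fin.not_lt_zero _)
          | succ k =>
            simp only [consP_succ, sa_lt] at a1 a2 ⊢
            obtain ⟨b1, b2⟩ := h2 i j k (Fin.succ_lt_succ_iff.1 hij) (Fin.succ_lt_succ_iff.1 hjk)
              a1 a2
            have b3 := (hlt _).2 b1
            refine ⟨by omega, fun l hl => ?_⟩
            induction l using Fin.cases with
            | zero => rwa [consP_zero]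
            | succ l =>
              rw [consP_succ, sa_lt]
              exact b2 l (Fin.succ_lt_succ_iff.1 hl)

theorem ok_other {n : ℕ} {x : ℕ} {U : ℕ∞} (c : Fin (n + 1))
    (hc : x ≤ (c : ℕ)) (τ : Equiv.Perm (Fin n)) :
    Ok x U (consP c τ) ↔ ((c : ℕ) : ℕ∞) ≤ U ∧ Ok x ((c : ℕ) : ℕ∞) τ := by
  have hlt : ∀ v : Fin n, (c.succAbove v : ℕ) < x ↔ (v : ℕ) < x := by
    intro v; rw [val_succAbove]; split_ifs <;> omega
  have hgt : ∀ v : Fin n, (c : ℕ) < c.succAbove v ↔ (c : ℕ) ≤ v := by
    intro v; rw [val_succAbove]; split_ifs <;> omega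
  constructor
  · rintro ⟨h1, h2⟩
    refine ⟨?_, fun i j hij hi hj => ?_, fun i j k hij hjk a1 a2 => ?_⟩
    · induction U using ENat.recTopCoe with
      | top => exact le_top
      | coe u =>
        norm_cast
        by_contra hu
        have hun : u < n := by have := c.2; omega
        have e : (c.succAbove ⟨u, hun⟩ : ℕ) = u := by
          rw [val_succAbove, if_pos (by simpa using hu)]
        have := h1 0 (τ.symm ⟨u, hun⟩).succ (Fin.succ_pos _)
        simp only [consP_zero, consP_succ, Equiv.apply_symm_apply, e, Nat.cast_le] at this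
        have := this (by omega) le_rfl
        omega
    · norm_cast at hi hj
      by_contra hn
      have hne : (τ j : ℕ) ≠ τ i := fun he => hij.ne' (τ.injective (Fin.ext he))
      have := h2 0 i.succ j.succ (Fin.succ_pos _) (Fin.succ_lt_succ_iff.2 hij)
      simp only [consP_zero, consP_succ, sa_lt, hgt] at this
      have := (this hj (by omega)).1
      omega
    · have := h2 i.succ j.succ k.succ (Fin.succ_lt_succ_iff.2 hij) (Fin.succ_lt_succ_iff.2 hjk)
      simp only [consP_succ, sa_lt, hlt] at this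
      obtain ⟨b1, b⟩ := this a1 a2
      refine ⟨b1, fun l hl => ?_⟩
      have := b l.succ (Fin.succ_lt_succ_iff.2 hl)
      rwa [consP_succ, sa_lt] at this
  · rintro ⟨h0, h1, h2⟩
    have big : ∀ v : Fin n, U ≤ ((c.succAbove v : ℕ) : ℕ∞) → (c : ℕ) ≤ v := by
      intro v hv
      have : ((c : ℕ) : ℕ∞) ≤ (c.succAbove v : ℕ) := h0.trans hv
      norm_cast at this
      have h3 : (c : ℕ) ≤ c.succAbove v := this
      rw [val_succAbove] at h3
      split_ifs at h3 <;> omega
    refine ⟨fun i j hij hi hj => ?_, fun i j k hij hjk a1 a2 => ?_⟩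
    · induction j using Fin.cases with
      | zero => exact absurd hij (Fin.not_lt_zero _)
      | succ j =>
        rw [consP_succ] at hj ⊢
        induction i using Fin.cases with
        | zero => rw [consP_zero, hgt]; exact big _ hj
        | succ i =>
          rw [consP_succ] at hi ⊢
          rw [sa_lt]
          exact h1 i j (Fin.succ_lt_succ_iff.1 hij) (by exact_mod_cast big _ hi)
            (by exact_mod_cast big _ hj)
    · induction j using Fin.cases with
      | zero => exact absurd hij (Fin.not_lt_zero _)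
      | succ j =>
        induction k using Fin.cases with
        | zero => exact absurd hjk (Fin.not_lt_zero _)
        | succ k =>
          induction i using Fin.cases with
          | zero =>
            simp only [consP_zero, consP_succ, sa_lt, hgt] at a1 a2
            have := h1 j k (Fin.succ_lt_succ_iff.1 hjk) (by exact_mod_cast (by omega : (c : ℕ) ≤ τ j))
              (by exact_mod_cast a1)
            omega
          | succ i =>
            simp only [consP_succ, sa_lt] at a1 a2 ⊢
            obtain ⟨b1, b2⟩ := h2 i j k (Fin.succ_lt_succ_iff.1 hij) (Fin.succ_lt_succ_iff.1 hjk)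
              a1 a2
            have b3 := (hlt _).2 b1
            refine ⟨b3, fun l hl => ?_⟩
            induction l using Fin.cases with
            | zero => rw [consP_zero]; omega
            | succ l =>
              rw [consP_succ, sa_lt]
              exact b2 l (Fin.succ_lt_succ_iff.1 hl)

open Classical in
noncomputable def Fp (n x : ℕ) (U : ℕ∞) : R :=
  ∑ τ : Equiv.Perm (Fin n), if Ok x U τ then X ^ invNum τ else 0

theorem Fp_zero (x : ℕ) (U : ℕ∞) : Fp 0 x U = 1 := by
  have : ∀ τ : Equiv.Perm (Fin 0), Ok x U τ := fun τ => ⟨fun i => i.elim0, fun i => i.elim0⟩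
  simp [Fp, this, invNum]

theorem Fp_succ (n x : ℕ) (U : ℕ∞) (hU : (x : ℕ∞) ≤ U) :
    Fp (n + 1) x U = S fun c => if c < n + 1 then X ^ c *
      (if c < x then Fp n c (U - 1) else if (c : ℕ∞) ≤ U then Fp n x c else 0) else 0 := by
  classical
  rw [S_range, ← Fin.sum_univ_eq_sum_range (fun c => X ^ c *
      (if c < x then Fp n c (U - 1) else if (c : ℕ∞) ≤ U then Fp n x c else 0)) (n + 1), Fp,
    ← (consP_bijective n).sum_comp, Fintype.sum_prod_type]
  refine Finset.sum_congr rfl fun c _ => ?_
  by_cases hc : (c : ℕ) < x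
  · rw [if_pos hc, Fp, Finset.mul_sum]
    refine Finset.sum_congr rfl fun τ _ => ?_
    simp only [ok_record hU c hc, invNum_consP, pow_add]
    split_ifs <;> simp
  · rw [if_neg hc]
    simp only [ok_other c (not_lt.1 hc), invNum_consP, pow_add]
    by_cases h2 : ((c : ℕ) : ℕ∞) ≤ U
    · rw [if_pos h2, Fp, Finset.mul_sum]
      refine Finset.sum_congr rfl fun τ _ => ?_
      simp only [h2, true_and]
      split_ifs <;> simp
    · simp [h2]

theorem Fp_eqv (n : ℕ) : ∀ (k x : ℕ) (U : ℕ∞), (x : ℕ∞) ≤ U →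
    ((x = 0 ∧ U = 0) ∨ (x = 0 ∧ 2 * k ≤ n + 2) ∨ 2 * k ≤ n + 1) → Eqv k (Fp n x U) (Fz n x U) := by
  induction n with
  | zero =>
    intro k x U _ h
    by_cases hx : x = 0
    · rw [Fp_zero, Fz, if_pos hx]; exact Eqv.refl _ _
    · have : k = 0 := by omega
      rw [this]; exact Eqv.zero _ _
  | succ n ih =>
    intro k x U hU h
    rw [Fp_succ n x U hU, Fz]
    refine Eqv.S fun c => ?_
    by_cases hcn : c < n + 1
    · rw [if_pos hcn]
      refine Eqv.X_pow_mul c ?_
      by_cases hc : c < x
      · rw [if_pos hc, if_pos hc]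
        refine ih _ _ _ ?_ (by omega)
        have := (enat_le_sub (v := c) (b := 1) (U := U)
          (le_trans (by exact_mod_cast (by omega : 1 ≤ x)) hU)).1
          (le_trans (by exact_mod_cast hc) hU)
        simpa using this
      · rw [if_neg hc, if_neg hc]
        split_ifs with h2
        · refine ih _ _ _ (by exact_mod_cast not_lt.1 hc) ?_
          by_cases hc0 : c = 0
          · exact Or.inl ⟨by omega, by simp [hc0]⟩
          · rcases h with ⟨-, h⟩ | h | h
            · rw [h] at h2
              simp at h2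
              omega
            · omega
            · omega
        · exact Eqv.refl _ _
    · rw [if_neg hcn]
      rcases h with ⟨h1, h2⟩ | h
      · rw [if_neg (by omega), if_neg (by rw [h2]; simp; omega), mul_zero]
        exact Eqv.refl _ _
      · exact (Eqv.X_pow_zero (by omega) _).symm

theorem Fp_top {k L K : ℕ} (hL : 2 * k + 2 ≤ L) (hK : k ≤ K) :
    Eqv (k + 1) (Fp (L + 1) (L + 1) ⊤)
      (PG 1 K * ∑ e ∈ Finset.range (K + 1), motG ℝ≥0∞ e 0 * PG 1 e) := by
  refine Eqv.trans ?_ (top_eqv (L := L) (by omega) hK)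
  rw [Fp_succ L (L + 1) ⊤ le_top]
  refine Eqv.S fun c => ?_
  split_ifs with hc
  · refine Eqv.X_pow_mul c ?_
    rw [ENat.top_sub_one]
    exact Fp_eqv L _ _ _ le_top (by omega)
  · exact (Eqv.X_pow_zero (by omega) _).symm

theorem coeff_Fp (n k : ℕ) : coeff k (Fp n n ⊤) = (avCount n k : ℝ≥0∞) := by
  classical
  unfold Fp avCount
  rw [map_sum, Set.ncard_eq_toFinset_card', Set.toFinset_ofPred, Finset.card_filter]
  push_cast
  refine Finset.sum_congr rfl fun π _ => ?_
  rw [ok_iff_avoids]
  by_cases h : Avoids π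
  · simp [h, coeff_X_pow, eq_comm]
  · simp [h]

/-- Geometric series with natural coefficients. -/
noncomputable def geoN (j : ℕ) : ℕ⟦X⟧ := PowerSeries.mk fun n => if j ∣ n then 1 else 0

theorem geoN_eq {j : ℕ} (hj : j ≠ 0) : geoN j = 1 + X ^ j * geoN j := by
  ext n
  simp only [geoN, map_add, coeff_mk, coeff_one, coeff_X_pow_mul']
  by_cases h0 : n = 0
  · subst h0; simp [hj]
  · rw [if_neg h0, zero_add]
    by_cases h1 : j ≤ n
    · rw [if_pos h1]
      simp only [Nat.dvd_sub_iff_left h1 (dvd_refl j)]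
    · rw [if_neg h1, if_neg]
      intro hd
      exact h1 (Nat.le_of_dvd (by omega) hd)

theorem map_geoN_R {j : ℕ} (hj : j ≠ 0) :
    PowerSeries.map (Nat.castRingHom ℝ≥0∞) (geoN j) = geo j := by
  have key : ∀ k, Eqv k (PowerSeries.map (Nat.castRingHom ℝ≥0∞) (geoN j)) (geo j) := by
    intro k
    induction k with
    | zero => exact Eqv.zero _ _
    | succ k ih =>
      rw [geoN_eq hj, geo_eq hj]
      simp only [map_add, map_one, map_mul, map_pow, map_X]
      exact (Eqv.refl _ _).add (Eqv.X_pow_mul j (ih.mono (by omega)))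
  ext n
  exact key (n + 1) n (Nat.lt_succ_self n)

theorem map_geoN_Q {j : ℕ} (hj : j ≠ 0) :
    PowerSeries.map (Nat.castRingHom ℚ) (geoN j) * (1 - X ^ j) = 1 := by
  have := congrArg (PowerSeries.map (Nat.castRingHom ℚ)) (geoN_eq hj)
  simp only [map_add, map_one, map_mul, map_pow, map_X] at this
  linear_combination this

theorem map_prod_Q (n : ℕ) :
    PowerSeries.map (Nat.castRingHom ℚ) (∏ i ∈ Finset.range n, geoN (1 + i)) = (qPoch n)⁻¹ := by
  have h : PowerSeries.map (Nat.castRingHom ℚ) (∏ i ∈ Finset.range n, geoN (1 + i)) * qPoch n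
      = 1 := by
    rw [map_prod, qPoch, ← Finset.prod_mul_distrib]
    refine Finset.prod_eq_one fun i _ => ?_
    rw [add_comm 1 i]
    exact map_geoN_Q (Nat.succ_ne_zero i)
  have hc : constantCoeff (qPoch n) ≠ 0 := by
    intro h0
    have := congrArg constantCoeff h
    rw [map_mul, h0, mul_zero, map_one] at this
    exact zero_ne_one this
  exact (PowerSeries.eq_inv_iff_mul_eq_one hc).2 h

theorem mot_eq (n : ℕ) : ∀ h, mot n h = motG ℚ n h := by
  induction n with
  | zero => intro h; rfl
  | succ n ih => intro h; cases h <;> simp [mot, motG, ih]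

theorem main (k n K : ℕ) (hn : 2 * k + 3 ≤ n) (hK : k ≤ K) :
    (avCount n k : ℚ) = coeff k ((qPoch K)⁻¹ *
      ∑ j ∈ Finset.range (K + 1), mot j 0 * (qPoch j)⁻¹) := by
  obtain ⟨L, rfl⟩ : ∃ L, n = L + 1 := ⟨n - 1, by omega⟩
  let F : ℕ⟦X⟧ := (∏ i ∈ Finset.range K, geoN (1 + i)) *
    ∑ j ∈ Finset.range (K + 1), motG ℕ j 0 * ∏ i ∈ Finset.range j, geoN (1 + i)
  have hPG : ∀ m, PowerSeries.map (Nat.castRingHom ℝ≥0∞) (∏ i ∈ Finset.range m, geoN (1 + i)) =
      PG 1 m := by
    intro m
    rw [map_prod, PG]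
    exact Finset.prod_congr rfl fun i _ => map_geoN_R (by omega)
  have h1 : PowerSeries.map (Nat.castRingHom ℝ≥0∞) F =
      PG 1 K * ∑ e ∈ Finset.range (K + 1), motG ℝ≥0∞ e 0 * PG 1 e := by
    simp only [F, map_mul, map_sum, hPG, map_motG]
  have h2 : PowerSeries.map (Nat.castRingHom ℚ) F =
      (qPoch K)⁻¹ * ∑ j ∈ Finset.range (K + 1), mot j 0 * (qPoch j)⁻¹ := by
    simp only [F, map_mul, map_sum, map_prod_Q, map_motG, mot_eq]
  have h3 := Fp_top (k := k) (L := L) (by omega) hK k (Nat.lt_succ_self k)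
  rw [coeff_Fp, ← h1, coeff_map] at h3
  rw [← h2, coeff_map]
  have h4 : avCount (L + 1) k = coeff k F := by
    simpa using h3
  rw [h4]
  simp

end Pool.Agent.Lib.MP_6fb490_co
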