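import Mathlib

set_option autoImplicit false

namespace Pool.Agent.Lib.MP_6fb490_co

open PowerSeries
open scoped ENNReal

abbrev R := PowerSeries ℝ≥0∞

/-- Unconditional sum of power series with coefficients in the extended nonnegative reals. -/
noncomputable def S (f : ℕ → R) : R := PowerSeries.mk fun k => ∑' i, coeff k (f i)

theorem coeff_S (f : ℕ → R) (k : ℕ) : coeff k (S f) = ∑' i, coeff k (f i) := coeff_mk _ _

theorem S_congr {f g : ℕ → R} (h : ∀ i, f i = g i) : S f = S g := by
  rw [show f = g from funext h]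

theorem S_zero : S (fun _ => 0) = 0 := by
  ext k; simp [coeff_S]

theorem S_add (f g : ℕ → R) : S (fun i => f i + g i) = S f + S g := by
  ext k; simp [coeff_S, ENNReal.tsum_add]

theorem mul_S (a : R) (f : ℕ → R) : a * S f = S (fun i => a * f i) := by
  ext k
  simp only [coeff_S, coeff_mul]
  rw [Summable.tsum_finsetSum (fun _ _ => ENNReal.summable)]
  exact Finset.sum_congr rfl fun p _ => ENNReal.tsum_mul_left.symm

theorem S_comm (f : ℕ → ℕ → R) : S (fun i => S (fun j => f i j)) = S (fun j => S (fun i => f i j)) := by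
  ext k
  simp only [coeff_S]
  exact ENNReal.tsum_comm

theorem S_succ (f : ℕ → R) : S f = f 0 + S (fun i => f (i + 1)) := by
  ext k
  simp only [coeff_S, map_add]
  exact tsum_eq_zero_add' ENNReal.summable

theorem ite_S (p : Prop) [Decidable p] (f : ℕ → R) :
    (if p then S f else 0) = S (fun i => if p then f i else 0) := by
  split_ifs
  · rfl
  · exact S_zero.symm

theorem S_shift (b : ℕ) (f : ℕ → R) :
    S (fun c => if b ≤ c then f c else 0) = S (fun x => f (x + b)) := by
  induction b generalizing f with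
  | zero => simp
  | succ b ih =>
    rw [S_succ]
    simp only [Nat.succ_ne_zero, nonpos_iff_eq_zero, if_false, zero_add, Nat.add_le_add_iff_right]
    rw [ih (fun c => f (c + 1))]
    rfl

theorem S_single (a : ℕ) (f : ℕ → R) (h : ∀ i, i ≠ a → f i = 0) : S f = f a := by
  ext k
  rw [coeff_S, tsum_eq_single a]
  intro i hi
  rw [h i hi, map_zero]

theorem S_range (n : ℕ) (f : ℕ → R) :
    S (fun i => if i < n then f i else 0) = ∑ i ∈ Finset.range n, f i := by
  ext k
  rw [coeff_S, tsum_eq_sum (s := Finset.range n), map_sum]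
  · refine Finset.sum_congr rfl fun i hi => ?_
    rw [if_pos (Finset.mem_range.1 hi)]
  · intro i hi
    rw [if_neg (fun h => hi (Finset.mem_range.2 h)), map_zero]

/-- Geometric series in `q ^ j`, with the convention `geo 0 = 1`. -/
noncomputable def geo (j : ℕ) : R := if j = 0 then 1 else S fun w => X ^ (j * w)

theorem geo_zero : geo 0 = 1 := if_pos rfl

theorem geo_eq {j : ℕ} (hj : j ≠ 0) : geo j = 1 + X ^ j * geo j := by
  conv_lhs => rw [geo, if_neg hj, S_succ]
  rw [geo, if_neg hj, mul_S]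
  simp only [mul_zero, pow_zero]
  congr 1
  exact S_congr fun i => by rw [← pow_add]; congr 1; ring

/-- Product of consecutive geometric series. -/
noncomputable def PG (j m : ℕ) : R := ∏ i ∈ Finset.range m, geo (j + i)

theorem PG_zero (j : ℕ) : PG j 0 = 1 := by simp [PG]

theorem PG_succ (j m : ℕ) : PG j (m + 1) = geo j * PG (j + 1) m := by
  unfold PG
  rw [Finset.prod_range_succ', mul_comm, add_zero]
  congr 1
  exact Finset.prod_congr rfl fun i _ => by congr 1; ring

theorem PG_succ' (j m : ℕ) : PG j (m + 1) = PG j m * geo (j + m) := by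
  unfold PG
  rw [Finset.prod_range_succ]

/-- Sum over the top variable with weight `q ^ (j w)`; no top variable when `j = 0`. -/
noncomputable def Hat (j : ℕ) (f : ℕ∞ → R) : R :=
  if j = 0 then f ⊤ else S fun w => X ^ (j * w) * f w

theorem Hat_add (j : ℕ) (f g : ℕ∞ → R) : Hat j (fun w => f w + g w) = Hat j f + Hat j g := by
  unfold Hat
  split_ifs
  · rfl
  · rw [← S_add]; exact S_congr fun i => mul_add _ _ _

theorem Hat_mul (j : ℕ) (a : R) (f : ℕ∞ → R) : Hat j (fun w => a * f w) = a * Hat j f := by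
  unfold Hat
  split_ifs
  · rfl
  · rw [mul_S]; exact S_congr fun i => by ring

theorem Hat_one (j : ℕ) : Hat j (fun _ => 1) = geo j := by
  unfold Hat geo
  split_ifs
  · rfl
  · simp

theorem Hat_S (j s : ℕ) (φ : ℕ∞ → R) :
    Hat j (fun w => S fun v => if ((v + s : ℕ) : ℕ∞) ≤ w then X ^ v * φ v else 0) =
      geo j * X ^ (j * s) * Hat (j + 1) φ := by
  by_cases hj : j = 0
  · subst hj
    simp [Hat, geo_zero]
  · rw [Hat, if_neg hj, Hat, if_neg (Nat.succ_ne_zero j)]
    simp only [mul_S]
    rw [S_comm]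
    refine S_congr fun v => ?_
    simp only [Nat.cast_le, mul_ite, mul_zero]
    rw [S_shift (v + s) (fun w => X ^ (j * w) * (X ^ v * φ v)), geo, if_neg hj, mul_comm (S _),
      mul_assoc, mul_comm (S _), ← mul_assoc, mul_S]
    refine S_congr fun w => ?_
    ring

/-- Equality of the coefficients below `k`. -/
def Eqv (k : ℕ) (f g : R) : Prop := ∀ i < k, coeff i f = coeff i g

theorem Eqv.refl (k : ℕ) (f : R) : Eqv k f f := fun _ _ => rfl

theorem Eqv.symm {k : ℕ} {f g : R} (h : Eqv k f g) : Eqv k g f := fun i hi => (h i hi).symm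

theorem Eqv.trans {k : ℕ} {f g e : R} (h : Eqv k f g) (h' : Eqv k g e) : Eqv k f e :=
  fun i hi => (h i hi).trans (h' i hi)

theorem Eqv.mono {k k' : ℕ} {f g : R} (h : Eqv k f g) (hk : k' ≤ k) : Eqv k' f g :=
  fun i hi => h i (lt_of_lt_of_le hi hk)

theorem Eqv.add {k : ℕ} {f g f' g' : R} (h : Eqv k f g) (h' : Eqv k f' g') :
    Eqv k (f + f') (g + g') := fun i hi => by rw [map_add, map_add, h i hi, h' i hi]

theorem Eqv.mul {k : ℕ} {f g f' g' : R} (h : Eqv k f g) (h' : Eqv k f' g') :
    Eqv k (f * f') (g * g') := fun i hi => by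
  rw [coeff_mul, coeff_mul]
  refine Finset.sum_congr rfl fun p hp => ?_
  have := Finset.HasAntidiagonal.mem_antidiagonal.1 hp
  rw [h p.1 (by omega), h' p.2 (by omega)]

theorem Eqv.X_pow_mul {k : ℕ} (c : ℕ) {f g : R} (h : Eqv (k - c) f g) :
    Eqv k (X ^ c * f) (X ^ c * g) := fun i hi => by
  rw [coeff_X_pow_mul', coeff_X_pow_mul']
  split_ifs with hc
  · exact h _ (by omega)
  · rfl

theorem Eqv.zero (f g : R) : Eqv 0 f g := fun i hi => absurd hi (Nat.not_lt_zero i)

theorem Eqv.X_pow_zero {k c : ℕ} (h : k ≤ c) (f : R) : Eqv k (X ^ c * f) 0 := by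
  have := Eqv.X_pow_mul (k := k) c (f := f) (g := 0) (by rw [Nat.sub_eq_zero_of_le h]; exact Eqv.zero _ _)
  rwa [mul_zero] at this

theorem Eqv.S {k : ℕ} {f g : ℕ → R} (h : ∀ i, Eqv k (f i) (g i)) : Eqv k (S f) (S g) :=
  fun i hi => by
    rw [coeff_S, coeff_S]
    exact tsum_congr fun j => h j i hi

theorem geo_eqv {k j : ℕ} (h : k ≤ j) : Eqv k (geo j) 1 := by
  by_cases hj : j = 0
  · rw [hj, geo_zero]; exact Eqv.refl _ _
  · rw [geo_eq hj]
    simpa using (Eqv.refl k 1).add (Eqv.X_pow_zero h (geo j))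

theorem PG_eqv {k a b : ℕ} (ha : k ≤ a + 1) (hab : a ≤ b) : Eqv k (PG 1 b) (PG 1 a) := by
  induction b, hab using Nat.le_induction with
  | base => exact Eqv.refl _ _
  | succ b hb ih =>
    rw [PG_succ']
    simpa using ih.mul (geo_eqv (k := k) (j := 1 + b) (by omega))

end Pool.Agent.Lib.MP_6fb490_co
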