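import Pool.Agent.Lib.MP_6fb490_co.SSum

set_option autoImplicit false

namespace Pool.Agent.Lib.MP_6fb490_co

open PowerSeries
open scoped ENNReal

/-- Generating function of unbounded codes of length `L` that reach the record `0`. -/
noncomputable def Fz : ℕ → ℕ → ℕ∞ → R
  | 0, x, _ => if x = 0 then 1 else 0
  | L + 1, x, U => S fun c => X ^ c *
      (if c < x then Fz L c (U - 1) else if (c : ℕ∞) ≤ U then Fz L x c else 0)

/-- The same with reduced values and a prescribed number `b` of further records. -/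
noncomputable def Vb : ℕ → ℕ → ℕ → ℕ∞ → R
  | 0, b, x, _ => if b = 0 ∧ x = 0 then 1 else 0
  | L + 1, b, x, u =>
      (if b = 0 then 0 else X ^ (b - 1) *
        S fun y => if y ≤ x then X ^ y * Vb L (b - 1) y u else 0) +
      X ^ b * S fun v => if x ≤ v ∧ (v : ℕ∞) ≤ u then X ^ v * Vb L b x v else 0

noncomputable def V : ℕ → ℕ → ℕ → ℕ∞ → R
  | 0, _, x, _ => if x = 0 then 1 else 0
  | L + 1, l, x, u =>
      X ^ l * (S fun y => if y ≤ x then X ^ y * V L (l + 1) y u else 0) +
      S fun v => if x ≤ v ∧ (v : ℕ∞) ≤ u then X ^ v * V L (l + 1) x v else 0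

theorem enat_le_sub {v b : ℕ} {U : ℕ∞} (h : (b : ℕ∞) ≤ U) :
    ((v + b : ℕ) : ℕ∞) ≤ U ↔ (v : ℕ∞) ≤ U - b := by
  induction U using ENat.recTopCoe with
  | top => simp
  | coe u =>
    norm_cast at h ⊢
    omega

theorem enat_sub_sub (U : ℕ∞) (b : ℕ) : U - 1 - b = U - ((b + 1 : ℕ) : ℕ∞) := by
  induction U using ENat.recTopCoe with
  | top => rw [ENat.top_sub_natCast, ENat.top_sub_one, ENat.top_sub_natCast]
  | coe u =>
    norm_cast
    omega

theorem Fz_eq (L : ℕ) : ∀ (x : ℕ) (U : ℕ∞), (x : ℕ∞) ≤ U →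
    Fz L x U = S fun b => if b ≤ x then Vb L b (x - b) (U - b) else 0 := by
  induction L with
  | zero =>
    intro x U _
    rw [S_single 0]
    · simp [Fz, Vb]
    · intro i hi
      simp [Vb, hi]
  | succ L ih =>
    intro x U hU
    have e1 : Fz (L + 1) x U =
        (S fun c => if c < x then X ^ c * Fz L c (U - 1) else 0) +
        S fun c => if x ≤ c ∧ (c : ℕ∞) ≤ U then X ^ c * Fz L x c else 0 := by
      rw [Fz, ← S_add]
      refine S_congr fun c => ?_
      by_cases h : c < x
      · simp [h, not_le.2 h]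
      · simp [h, not_lt.1 h]
    have e2 : (S fun b => if b ≤ x then Vb (L + 1) b (x - b) (U - b) else 0) =
        (S fun b => if b ≤ x then (if b = 0 then 0 else X ^ (b - 1) *
          S fun y => if y ≤ x - b then X ^ y * Vb L (b - 1) y (U - b) else 0) else 0) +
        S fun b => if b ≤ x then X ^ b *
          (S fun v => if x - b ≤ v ∧ (v : ℕ∞) ≤ U - b then X ^ v * Vb L b (x - b) v else 0)
          else 0 := by
      rw [← S_add]
      refine S_congr fun b => ?_
      rw [Vb]
      split_ifs <;> simp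
    rw [e1, e2]
    congr 1
    · have a1 : (S fun c => if c < x then X ^ c * Fz L c (U - 1) else 0) =
          S fun c => S fun b => if b ≤ c then
            (if c < x then X ^ c * Vb L b (c - b) (U - 1 - b) else 0) else 0 := by
        refine S_congr fun c => ?_
        by_cases h : c < x
        · rw [if_pos h, ih c (U - 1), mul_S]
          · refine S_congr fun b => ?_
            simp [h]
          · have := (enat_le_sub (v := c) (b := 1) (U := U)
              (le_trans (by exact_mod_cast (by omega : 1 ≤ x)) hU)).1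
              (le_trans (by exact_mod_cast h) hU)
            simpa using this
        · simp [h, S_zero]
      rw [a1, S_comm, S_succ (fun b => if b ≤ x then _ else 0)]
      simp only [zero_le, if_true, zero_add, Nat.succ_ne_zero, if_false, Nat.add_sub_cancel]
      refine S_congr fun b => ?_
      rw [S_shift b (fun c => if c < x then X ^ c * Vb L b (c - b) (U - 1 - b) else 0), mul_S,
        ite_S]
      refine S_congr fun y => ?_
      rw [enat_sub_sub, Nat.add_sub_cancel]
      by_cases h : y + b < x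
      · rw [if_pos h, if_pos (by omega), if_pos (by omega)]
        ring
      · rw [if_neg h]
        by_cases h2 : b + 1 ≤ x
        · rw [if_pos h2, if_neg (by omega), mul_zero]
        · rw [if_neg h2]
    · have a1 : (S fun c => if x ≤ c ∧ (c : ℕ∞) ≤ U then X ^ c * Fz L x c else 0) =
          S fun c => S fun b => if b ≤ c then
            (if b ≤ x ∧ x ≤ c ∧ (c : ℕ∞) ≤ U then X ^ c * Vb L b (x - b) ((c : ℕ∞) - b) else 0)
            else 0 := by
        refine S_congr fun c => ?_
        by_cases h : x ≤ c ∧ (c : ℕ∞) ≤ U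
        · rw [if_pos h, ih x c (by exact_mod_cast h.1), mul_S]
          refine S_congr fun b => ?_
          by_cases hb : b ≤ x
          · rw [if_pos hb, if_pos (hb.trans h.1), if_pos ⟨hb, h⟩]
          · rw [if_neg hb, mul_zero]
            split_ifs with h1 h2
            · exact absurd h2.1 hb
            · rfl
            · rfl
        · rw [if_neg h]
          refine S_zero.symm.trans (S_congr fun b => ?_)
          split_ifs with h1 h2
          · exact absurd h2.2 h
          · rfl
          · rfl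
      rw [a1, S_comm]
      refine S_congr fun b => ?_
      rw [S_shift b (fun c => if b ≤ x ∧ x ≤ c ∧ (c : ℕ∞) ≤ U then
        X ^ c * Vb L b (x - b) ((c : ℕ∞) - b) else 0), mul_S, ite_S]
      refine S_congr fun v => ?_
      by_cases hb : b ≤ x
      · have hbU : (b : ℕ∞) ≤ U := le_trans (by exact_mod_cast hb) hU
        have e : ((v + b : ℕ) : ℕ∞) - b = v := by norm_cast; omega
        rw [if_pos hb, e]
        by_cases h : x - b ≤ v ∧ (v : ℕ∞) ≤ U - b
        · rw [if_pos h, if_pos ⟨hb, by omega, (enat_le_sub hbU).2 h.2⟩]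
          ring
        · rw [if_neg h, if_neg, mul_zero]
          rintro ⟨-, h1, h2⟩
          exact h ⟨by omega, (enat_le_sub hbU).1 h2⟩
      · rw [if_neg hb, if_neg (fun h => hb h.1)]

theorem V_eq (L : ℕ) : ∀ (l x : ℕ) (u : ℕ∞), V L l x u = S fun b => X ^ (b * l) * Vb L b x u := by
  induction L with
  | zero =>
    intro l x u
    rw [S_single 0]
    · simp [V, Vb]
    · intro i hi
      simp [Vb, hi]
  | succ L ih =>
    intro l x u
    simp only [V, Vb, mul_add, S_add]
    congr 1
    · rw [S_succ (fun b => X ^ (b * l) * _)]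
      simp only [if_true, mul_zero, zero_add, Nat.succ_ne_zero, if_false, Nat.add_sub_cancel,
        ih, mul_S, ite_S]
      rw [S_comm]
      refine S_congr fun b => S_congr fun y => ?_
      split_ifs
      · ring
      · simp
    · simp only [ih, mul_S, ite_S]
      rw [S_comm]
      refine S_congr fun b => S_congr fun y => ?_
      split_ifs
      · ring
      · simp

theorem top_eq (L : ℕ) : (S fun c => X ^ c * Fz L c ⊤) = S fun x => X ^ x * V L 1 x ⊤ := by
  have a1 : (S fun c => X ^ c * Fz L c ⊤) =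
      S fun c => S fun b => if b ≤ c then X ^ c * Vb L b (c - b) ⊤ else 0 := by
    refine S_congr fun c => ?_
    rw [Fz_eq L c ⊤ le_top, mul_S]
    refine S_congr fun b => ?_
    simp
  rw [a1, S_comm]
  simp only [V_eq, mul_S]
  rw [S_comm (fun x b => X ^ x * (X ^ (b * 1) * Vb L b x ⊤))]
  refine S_congr fun b => ?_
  rw [S_shift b (fun c => X ^ c * Vb L b (c - b) ⊤)]
  refine S_congr fun x => ?_
  rw [Nat.add_sub_cancel]
  ring

/-- Sum over a weakly decreasing chain of `r + 1` pending values bounded by `w`. -/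
noncomputable def Ch : ℕ → ℕ∞ → (ℕ → R) → R
  | 0, w, g => S fun x => if (x : ℕ∞) ≤ w then X ^ x * g x else 0
  | r + 1, w, g => S fun x => if (x : ℕ∞) ≤ w then X ^ x * Ch r x g else 0

theorem Ch_congr (r : ℕ) : ∀ (w : ℕ∞) (g g' : ℕ → R), (∀ x : ℕ, (x : ℕ∞) ≤ w → g x = g' x) →
    Ch r w g = Ch r w g' := by
  induction r with
  | zero =>
    intro w g g' h
    refine S_congr fun x => ?_
    split_ifs with hx
    · rw [h x hx]
    · rfl
  | succ r ih =>
    intro w g g' h
    refine S_congr fun x => ?_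
    split_ifs with hx
    · rw [ih x g g' fun y hy => h y (hy.trans hx)]
    · rfl

theorem Ch_S (r : ℕ) : ∀ (w : ℕ∞) (f : ℕ → ℕ → R),
    Ch r w (fun x => S fun v => f x v) = S fun v => Ch r w (fun x => f x v) := by
  induction r with
  | zero =>
    intro w f
    simp only [Ch, mul_S, ite_S]
    exact S_comm _
  | succ r ih =>
    intro w f
    simp only [Ch, ih, mul_S, ite_S]
    exact S_comm _

theorem Ch_mul (r : ℕ) : ∀ (w : ℕ∞) (a : R) (g : ℕ → R),
    Ch r w (fun x => a * g x) = a * Ch r w g := by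
  induction r with
  | zero =>
    intro w a g
    simp only [Ch, mul_S]
    refine S_congr fun x => ?_
    split_ifs
    · ring
    · simp
  | succ r ih =>
    intro w a g
    simp only [Ch, ih, mul_S]
    refine S_congr fun x => ?_
    split_ifs
    · ring
    · simp

theorem Ch_zero (r : ℕ) (w : ℕ∞) : Ch r w (fun _ => 0) = 0 := by
  simpa using Ch_mul r w 0 (fun _ => 0)

theorem Ch_add (r : ℕ) : ∀ (w : ℕ∞) (g g' : ℕ → R),
    Ch r w (fun x => g x + g' x) = Ch r w g + Ch r w g' := by
  induction r with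
  | zero =>
    intro w g g'
    simp only [Ch, ← S_add]
    refine S_congr fun x => ?_
    split_ifs
    · ring
    · simp
  | succ r ih =>
    intro w g g'
    simp only [Ch, ih, ← S_add]
    refine S_congr fun x => ?_
    split_ifs
    · ring
    · simp

theorem Ch_snoc (r : ℕ) : ∀ (w : ℕ∞) (g : ℕ → R),
    Ch r w (fun x => S fun y => if y ≤ x then X ^ y * g y else 0) = Ch (r + 1) w g := by
  induction r with
  | zero =>
    intro w g
    simp only [Ch, Nat.cast_le]
  | succ r ih =>
    intro w g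
    rw [Ch, Ch]
    simp only [ih]

noncomputable def T (r : ℕ) (w : ℕ∞) (s : ℕ) (G : ℕ → ℕ∞ → R) : R :=
  Ch r w fun x => S fun v => if x ≤ v ∧ ((v + s : ℕ) : ℕ∞) ≤ w then X ^ v * G x v else 0

theorem T_zero (w : ℕ∞) (s : ℕ) (G : ℕ → ℕ∞ → R) :
    T 0 w s G = S fun v => if ((v + s : ℕ) : ℕ∞) ≤ w then X ^ v * Ch 0 v (fun x => G x v) else 0 := by
  simp only [T, Ch, mul_S, ite_S]
  rw [S_comm]
  refine S_congr fun v => S_congr fun x => ?_
  by_cases h1 : ((v + s : ℕ) : ℕ∞) ≤ w
  · by_cases h2 : x ≤ v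
    · have h3 : (x : ℕ∞) ≤ w := le_trans (by exact_mod_cast (by omega : x ≤ v + s)) h1
      rw [if_pos h3, if_pos ⟨h2, h1⟩, if_pos h1, if_pos (by exact_mod_cast h2)]
      ring
    · rw [if_neg (fun h : x ≤ v ∧ _ => h2 h.1), if_pos h1,
        if_neg (show ¬ (x : ℕ∞) ≤ v by exact_mod_cast h2)]
      simp
  · rw [if_neg (fun h : x ≤ v ∧ _ => h1 h.2), if_neg h1]
    simp

theorem T_succ (r : ℕ) (w : ℕ∞) (s : ℕ) (hs : s ≤ 1) (G : ℕ → ℕ∞ → R) :
    T (r + 1) w s G =
      (S fun v => if ((v + s : ℕ) : ℕ∞) ≤ w then X ^ v * Ch (r + 1) v (fun x => G x v) else 0) +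
      S fun y => if ((y + 0 : ℕ) : ℕ∞) ≤ w then X ^ y * T r y 1 G else 0 := by
  have a1 : (S fun v => if ((v + s : ℕ) : ℕ∞) ≤ w then X ^ v * Ch (r + 1) v (fun x => G x v) else 0)
      = S fun y => if (y : ℕ∞) ≤ w then X ^ y * Ch r y (fun x => S fun v =>
        if y ≤ v ∧ ((v + s : ℕ) : ℕ∞) ≤ w then X ^ v * G x v else 0) else 0 := by
    simp only [Ch, Ch_S, mul_S, ite_S]
    rw [S_comm]
    refine S_congr fun y => S_congr fun v => ?_
    by_cases h1 : ((v + s : ℕ) : ℕ∞) ≤ w
    · by_cases h2 : y ≤ v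
      · have h3 : (y : ℕ∞) ≤ w := le_trans (by exact_mod_cast (by omega : y ≤ v + s)) h1
        rw [if_pos h1, if_pos (by exact_mod_cast h2), if_pos h3]
        simp only [h1, h2, and_self, if_true, Ch_mul]
        ring
      · rw [if_pos h1, if_neg (show ¬ (y : ℕ∞) ≤ v by exact_mod_cast h2)]
        simp [h2, Ch_zero]
    · rw [if_neg h1]
      simp only [h1, and_false, if_false, Ch_zero]
      simp
  rw [a1, ← S_add, T, Ch]
  refine S_congr fun y => ?_
  rw [add_zero]
  split_ifs with hy
  · rw [← mul_add, T, ← Ch_add]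
    congr 1
    refine Ch_congr r y _ _ fun x hx => ?_
    have hx' : x ≤ y := by exact_mod_cast hx
    rw [← S_add]
    refine S_congr fun v => ?_
    by_cases h2 : y ≤ v
    · have h3 : ¬ (x ≤ v ∧ ((v + 1 : ℕ) : ℕ∞) ≤ y) := by
        rintro ⟨-, h⟩
        have : v + 1 ≤ y := by exact_mod_cast h
        omega
      rw [if_neg h3, add_zero]
      simp only [h2, hx'.trans h2, true_and]
    · rw [if_neg (fun h : y ≤ v ∧ _ => h2 h.1), zero_add]
      have h3 : ((v + 1 : ℕ) : ℕ∞) ≤ y := by exact_mod_cast (by omega : v + 1 ≤ y)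
      have h4 : ((v + s : ℕ) : ℕ∞) ≤ w := le_trans (by exact_mod_cast (by omega : v + s ≤ y)) hy
      simp only [h3, h4]
  · simp

/-- Sum over the markings of `r` pending letters. -/
noncomputable def Ap : ℕ → ℕ → (ℕ → R) → R
  | _, 0, φ => φ 0
  | j, r + 1, φ => Ap (j + 1) r φ + X ^ (j + 1) * Ap (j + 1) r (fun h => φ (h + 1))

theorem Ap_add (r : ℕ) : ∀ (j : ℕ) (φ ψ : ℕ → R),
    Ap j r (fun h => φ h + ψ h) = Ap j r φ + Ap j r ψ := by
  induction r with
  | zero => intro j φ ψ; rfl
  | succ r ih =>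
    intro j φ ψ
    simp only [Ap, ih]
    ring

theorem Ap_mul (r : ℕ) : ∀ (j : ℕ) (a : R) (φ : ℕ → R),
    Ap j r (fun h => a * φ h) = a * Ap j r φ := by
  induction r with
  | zero => intro j a φ; rfl
  | succ r ih =>
    intro j a φ
    simp only [Ap, ih]
    ring

theorem Ap_shift (r : ℕ) : ∀ (j : ℕ) (φ : ℕ → R),
    Ap (j + 1) r φ = Ap j r (fun h => X ^ h * φ h) := by
  induction r with
  | zero => intro j φ; simp [Ap]
  | succ r ih =>
    intro j φ
    simp only [Ap]
    rw [ih (j + 1) φ, ih (j + 1) (fun h => φ (h + 1))]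
    have : (fun h => X ^ (h + 1) * φ (h + 1)) = fun h => X * (X ^ h * φ (h + 1)) := by
      funext h; ring
    rw [this, Ap_mul]
    ring

theorem Ap_snoc (r : ℕ) : ∀ (j : ℕ) (φ : ℕ → R),
    Ap j (r + 1) φ = Ap j r (fun h => φ h + X ^ (j + r + 1) * φ (h + 1)) := by
  induction r with
  | zero => intro j φ; simp [Ap]
  | succ r ih =>
    intro j φ
    rw [Ap, ih, ih, Ap]
    have : j + 1 + r + 1 = j + (r + 1) + 1 := by ring
    rw [this]

theorem Ap_delta (r : ℕ) : ∀ j : ℕ, Ap j r (fun h => if h = 0 then 1 else 0) = 1 := by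
  induction r with
  | zero => intro j; simp [Ap]
  | succ r ih =>
    intro j
    rw [Ap, ih]
    have := Ap_mul r (j + 1) 0 (fun _ => 0)
    simp only [mul_zero, zero_mul] at this
    simp [this]

/-- The down step. -/
noncomputable def dn (φ : ℕ → R) : ℕ → R
  | 0 => 0
  | h + 1 => X ^ h * φ h

noncomputable def Q : ℕ → ℕ → ℕ → R
  | 0, _, h => if h = 0 then 1 else 0
  | L + 1, l, h => X ^ (l + 1) * (Q L (l + 1) h + X ^ (l + 1) * Q L (l + 1) (h + 1)) +
      (X ^ h * Q L (l + 1) h + dn (Q L (l + 1)) h)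

theorem Hat_T (G : ℕ → ℕ∞ → R) (φ : ℕ → R) (m n : ℕ)
    (hE : ∀ r j, j + r = n → Hat j (fun w => Ch r w (fun x => G x w)) = PG j (r + m) * Ap j r φ)
    (r : ℕ) : ∀ j s, s ≤ 1 → j + r + 1 = n → Hat j (fun w => T r w s G) =
      PG j (r + m + 1) * (X ^ (j * s) * Ap (j + 1) r φ + Ap j r (dn φ)) := by
  induction r with
  | zero =>
    intro j s _ hn
    simp only [T_zero]
    rw [Hat_S j s (fun w => Ch 0 w (fun x => G x w)), hE 0 (j + 1) (by omega), PG_succ]
    simp only [Ap, dn]
    ring
  | succ r ih =>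
    intro j s hs hn
    simp only [T_succ r _ s hs]
    rw [Hat_add, Hat_S j s (fun w => Ch (r + 1) w (fun x => G x w)),
      Hat_S j 0 (fun w => T r w 1 G), hE (r + 1) (j + 1) (by omega),
      ih (j + 1) 1 le_rfl (by omega), PG_succ j]
    have e1 : Ap j (r + 1) (dn φ) = Ap (j + 1) r (dn φ) + X ^ (j + 1) * Ap (j + 1 + 1) r φ := by
      rw [Ap, Ap_shift r (j + 1) φ]
      rfl
    have e2 : r + 1 + m = r + m + 1 := by ring
    rw [e1, e2]
    ring

theorem Hat_V (L : ℕ) : ∀ r j, Hat j (fun w => Ch r w (fun x => V L (j + r + 1) x w)) =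
    PG j (r + (L + 1)) * Ap j r (Q L (j + r)) := by
  induction L with
  | zero =>
    intro r
    have hQ : ∀ l, Q 0 l = fun h => if h = 0 then 1 else 0 := fun l => by funext h; rfl
    simp only [V, hQ, Ap_delta, mul_one]
    induction r with
    | zero =>
      intro j
      have : ∀ w : ℕ∞, Ch 0 w (fun x => if x = 0 then 1 else 0) = 1 := by
        intro w
        rw [Ch, S_single 0]
        · simp
        · intro i hi; simp [hi]
      simp only [this, Hat_one]
      simp [PG]
    | succ r ih =>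
      intro j
      have := Hat_S j 0 (fun w => Ch r w (fun x => if x = 0 then 1 else 0))
      simp only [add_zero, mul_zero, pow_zero, mul_one] at this
      simp only [Ch]
      rw [this, ih (j + 1), show r + 1 + (0 + 1) = (r + (0 + 1)) + 1 by ring, PG_succ j]
  | succ L ih =>
    intro r j
    have a1 : ∀ w : ℕ∞, Ch r w (fun x => V (L + 1) (j + r + 1) x w) =
        X ^ (j + r + 1) * Ch (r + 1) w (fun x => V L (j + (r + 1) + 1) x w) +
        T r w 0 (V L (j + r + 1 + 1)) := by
      intro w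
      simp only [V]
      rw [Ch_add, Ch_mul, Ch_snoc r w (fun x => V L (j + r + 1 + 1) x w)]
      rfl
    simp only [a1]
    rw [Hat_add, Hat_mul, ih (r + 1) j,
      Hat_T (V L (j + r + 1 + 1)) (Q L (j + r + 1)) (L + 1) (j + r + 1) ?_ r j 0 (by omega) rfl]
    · have e : Q (L + 1) (j + r) = fun h => X ^ (j + r + 1) * (Q L (j + r + 1) h +
          X ^ (j + r + 1) * Q L (j + r + 1) (h + 1)) +
          (X ^ h * Q L (j + r + 1) h + dn (Q L (j + r + 1)) h) := by
        funext h; rfl
      rw [e, Ap_add, Ap_add, Ap_mul, ← Ap_snoc, ← Ap_shift,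
        show r + 1 + (L + 1) = r + (L + 1 + 1) by ring,
        show r + (L + 1) + 1 = r + (L + 1 + 1) by ring, show j + (r + 1) = j + r + 1 by ring]
      ring
    · intro r' j' h
      rw [← h]
      exact ih r' j'

theorem top_eq' (L : ℕ) : (S fun c => X ^ c * Fz L c ⊤) = PG 1 L * Q L 0 0 := by
  have := Hat_V L 0 0
  simp only [Hat, if_true, Ch, le_top, zero_add, Ap] at this
  rw [top_eq, this, PG_succ, geo_zero, one_mul]

end Pool.Agent.Lib.MP_6fb490_co
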